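import Pool.Agent.L7h57.EX.Graded

set_option autoImplicit false

/-!
# Horrocks' inequality from the generators and the socle

`M` is a finite dimensional module over the polynomial ring `k[X_1, …, X_m]`, `k` an infinite field, and `R` is a
resolution of `M` by finite free modules.

* Let `A` and `T` be subspaces of `M` such that `A` does not meet `(X_1, …, X_m) M` and `T` is annihilated by the
  variables, let `π` be a projection onto `T` which vanishes on `A`, let `B` be a subspace which contains `X_j A` for
  all `j`, and let `D` be a subspace such that `π (X_j D) = 0` for all `j`. Then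
  `rank F_i ≥ K(i, a, b) + K(m - i, c, d)` for `a ≤ dim A`, `b ≥ dim B`, `c ≤ dim T`, `d ≥ codim D`, where
  `K(i, a, b)` is the maximum of `binom(m, i) a - binom(m, i - 1) b` and, if `a + b ≤ m + 1`, of the sum of
  `max(0, a - #(I ∩ {0, …, a + b - 1}))` over the subsets `I` of `{0, …, m}` with `i` elements.
* Hence `rank F_i ≥ binom(m, i)` for all `i` if `A ≠ 0`, `T ≠ 0` and one of the following holds for `a = dim A`,
  `b ≥ dim B`, `c = dim T`, `d ≥ codim D`: `b ≤ c` and `d ≤ a`; `max(b, m + 2 - a) max(d, m + 2 - c) ≤ a c`;
  `b d ≤ (a - 1) (c - 1)`.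
* Let `M` be graded by an abelian group so that `X_j` is homogeneous, and let `E` be the set of the degrees of the
  variables. The same holds with `a` the number of minimal generators of degree `p`, `c` the dimension of the socle
  in degree `q`, `b = ∑ e ∈ E, dim M_(p + e)` and `d = ∑ e ∈ E, dim M_(q - e)`, if `a` and `c` are not zero.

For the standard grading and `M = M_0 ⊕ … ⊕ M_s` the first case holds if `dim M_1 ≤ dim M_s` and
`dim M_(s-1) ≤ dim M_0`, for example if all pieces have the same dimension, and for `s = 1`.

The proof: the Koszul cycles with coefficients in `A`, and, by duality, those with coefficients in the functionals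
which factor through `π`, give independent Koszul homology classes. For `n` arbitrary linear maps from `A` to `B` the
kernel of the Koszul differential is bounded below by deformation to the family of multiplication maps of binary
forms: for a form `w` with given roots, Cramer's rule gives vectors which depend polynomially on the family, whose maps
vanish at `w` and which specialize to the evaluations at the roots; the products of these vectors and `w` are
independent for the special family, and so for the general member of the pencil.
-/

namespace Pool.Agent.Results.MP_e2ce73_al.GeneratorsAndSocle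

open MvPolynomial Pool.Agent.L7h57.EX Pool.Agent.Y577.BT

universe u v w

theorem result (k : Type u) [Field k] [Infinite k] (m : ℕ) (M : Type v) [AddCommGroup M] [Module k M]
    [FiniteDimensional k M] [Module (MvPolynomial (Fin m) k) M] [IsScalarTower k (MvPolynomial (Fin m) k) M]
    (R : FreeRes (MvPolynomial (Fin m) k) M) :
    (∀ (A B T D : Submodule k M) (π : M →ₗ[k] M), Ends k m M A B T D π →
      ∀ a b c d : ℕ, a ≤ Module.finrank k A → Module.finrank k B ≤ b →
        c ≤ Module.finrank k T → Module.finrank k (M ⧸ D) ≤ d →
        ∀ i ≤ m, kerBound m i a b + kerBound m (m - i) c d ≤ R.rank i) ∧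
    (∀ (A B T D : Submodule k M) (π : M →ₗ[k] M), Ends k m M A B T D π → A ≠ ⊥ → T ≠ ⊥ →
      ∀ b d : ℕ, Module.finrank k B ≤ b → Module.finrank k (M ⧸ D) ≤ d →
        Balanced m (Module.finrank k A) b (Module.finrank k T) d → ∀ i, m.choose i ≤ R.rank i) ∧
    ∀ (Γ : Type w) [AddCommGroup Γ] [DecidableEq Γ] (deg : Fin m → Γ) (ℳ : Γ → Submodule k M),
      DirectSum.IsInternal ℳ →
      (∀ (j : Fin m) (a : Γ), ∀ x ∈ ℳ a, (X j : MvPolynomial (Fin m) k) • x ∈ ℳ (a + deg j)) →
      ∀ (p q : Γ) (G S : Submodule k M),
        G = ℳ p ⊓ Submodule.span k {z : M | ∃ (j : Fin m) (y : M), (X j : MvPolynomial (Fin m) k) • y = z} →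
        (∀ x, x ∈ S ↔ x ∈ ℳ q ∧ ∀ j : Fin m, (X j : MvPolynomial (Fin m) k) • x = 0) →
        Balanced m (Module.finrank k (ℳ p) - Module.finrank k G)
          (∑ e ∈ Finset.univ.image deg, Module.finrank k (ℳ (p + e))) (Module.finrank k S)
          (∑ e ∈ Finset.univ.image deg, Module.finrank k (ℳ (q - e))) →
        S ≠ ⊥ → G ≠ ℳ p → ∀ i, m.choose i ≤ R.rank i := by
  refine ⟨fun A B T D π h a b c d ha hb hc hd i hi => h.bound R i hi a b c d ha hb hc hd,
    fun A B T D π h hA hT b d hb hd hbal i => h.horrocks R hA hT b d hb hd hbal i, ?_⟩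
  intro Γ _ _ deg ℳ hℳ hX p q G S hG hS h1 h3 h4 i
  exact graded_horrocks deg ℳ hℳ hX p q G S hG hS h1 h3 h4 R i

end Pool.Agent.Results.MP_e2ce73_al.GeneratorsAndSocle
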