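import Pool.Agent.L7h57.HJ.Fam3
import Pool.Agent.L7h57.HJ.Act

set_option autoImplicit false

/-!
# Horrocks' inequality for modules with Hermitian Jordan symmetry

Let `M ≠ 0` be a finite dimensional module with a Hermitian inner product over the polynomial ring whose variables
`X_p` form a basis of a space `V`, let `h_c` be a Jordan family of matrices acting on `V` (see `JordanFamily`), and let
`Φ_c` be operators on `M` with `Φ_c^* = Φ_(σ c)` and `[Φ_c, X_q] = ∑ p, (h_c)_(p q) X_p`. Then every resolution of `M`
by finite free modules has `rank F_i ≥ binom(dim V, i)` for all `i`.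

Jordan families are the orthonormal bases of the Lie algebras of inner derivations of positive Hermitian Jordan
triple systems (the Levi subalgebras of Hermitian symmetric pairs acting on the abelian nilradical). The classical
cases are spelled out: `gl_a × gl_b` acting on rectangular `a × b` matrices of variables, and `gl_n` acting on symmetric
and on skew-symmetric `n × n` matrices of variables.

The proof: for a Hermitian element `ζ` of the Lie algebra which is invertible on `V` and acts on `M` by `Φ`, the
tensor product of a lowest eigenvector of `Φ` with the line `∧^i V^-`, `V^-` the negative eigenspace of `ζ` on `V`, is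
harmonic in the Koszul complex (this is known from the general bound by Hermitian symmetries), so that it suffices
that these lines span `∧^i V`. Otherwise the orthogonal complement of their span is a nonzero submodule `W`. Let `v` be
a unit vector of `W` with moment of maximal norm. The Jordan identity says that `∑ c, Γ(h_c^*) a(h_c^* x) = 0` on the
Fock space for all `x ∈ V` (`Γ` second quantization, `a` annihilation operators), and it implies that for an explicit
Hermitian element `ζ` of the Lie algebra and `ζ x = t x`, `x ≠ 0`, the numbers `t ‖a(x) v‖^2` and `-t ‖a^*(x) v‖^2`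
are sums of squares, and `t ≠ 0`. So `v` spans one of the lines, a contradiction.
-/

namespace Pool.Agent.Results.MP_e2ce73_al.HermitianJordanSymmetry

open MvPolynomial Pool.Agent.L7h57.HJ Pool.Agent.Y577.BT

universe v

theorem result :
    (∀ (ι C : Type) [Fintype ι] [DecidableEq ι] [Fintype C] (σ : C → C) (h : C → Matrix ι ι ℂ)
      (γ : C → C → C → ℂ), JordanFamily σ h γ →
      ∀ (M : Type v) [NormedAddCommGroup M] [InnerProductSpace ℂ M] [FiniteDimensional ℂ M] [Nontrivial M]
        [Module (MvPolynomial ι ℂ) M] [IsScalarTower ℂ (MvPolynomial ι ℂ) M] (Φ : C → M →ₗ[ℂ] M),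
        CompatibleAction σ h M Φ →
        ∀ (R : FreeRes (MvPolynomial ι ℂ) M) (i : ℕ), (Fintype.card ι).choose i ≤ R.rank i) ∧
    (∀ (a b : ℕ) (M : Type v) [NormedAddCommGroup M] [InnerProductSpace ℂ M] [FiniteDimensional ℂ M]
        [Nontrivial M] [Module (MvPolynomial (Fin a × Fin b) ℂ) M]
        [IsScalarTower ℂ (MvPolynomial (Fin a × Fin b) ℂ) M]
        (E : Fin a → Fin a → M →ₗ[ℂ] M) (F : Fin b → Fin b → M →ₗ[ℂ] M),
        RowAction (Fin a) (Fin b) M E → ColumnAction (Fin a) (Fin b) M F →
        ∀ (R : FreeRes (MvPolynomial (Fin a × Fin b) ℂ) M) (i : ℕ), (a * b).choose i ≤ R.rank i) ∧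
    (∀ (n : ℕ) (M : Type v) [NormedAddCommGroup M] [InnerProductSpace ℂ M] [FiniteDimensional ℂ M]
        [Nontrivial M] [Module (MvPolynomial (Sym2 (Fin n)) ℂ) M]
        [IsScalarTower ℂ (MvPolynomial (Sym2 (Fin n)) ℂ) M] (E : Fin n → Fin n → M →ₗ[ℂ] M),
        SquareAction symEntry M E →
        ∀ (R : FreeRes (MvPolynomial (Sym2 (Fin n)) ℂ) M) (i : ℕ), ((n + 1).choose 2).choose i ≤ R.rank i) ∧
    (∀ (n : ℕ) (M : Type v) [NormedAddCommGroup M] [InnerProductSpace ℂ M] [FiniteDimensional ℂ M]
        [Nontrivial M] [Module (MvPolynomial {z : Fin n × Fin n // z.1 < z.2} ℂ) M]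
        [IsScalarTower ℂ (MvPolynomial {z : Fin n × Fin n // z.1 < z.2} ℂ) M]
        (E : Fin n → Fin n → M →ₗ[ℂ] M), SquareAction skewEntry M E →
        ∀ (R : FreeRes (MvPolynomial {z : Fin n × Fin n // z.1 < z.2} ℂ) M) (i : ℕ),
          (n.choose 2).choose i ≤ R.rank i) := by
  refine ⟨?_, ?_, ?_, ?_⟩
  · intro ι C _ _ _ σ h γ J M _ _ _ _ _ _ Φ hΦ R i
    exact poly_rank J (fun _ => 1) (fun _ => one_ne_zero) M Φ hΦ.adjoint (fun c q x => by
      simp only [one_smul]
      exact hΦ.commutator c q x) R i
  · intro a b M _ _ _ _ _ _ E F hE hF R i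
    have h := mat_rank (Fin a) (Fin b) M E F hE.adjoint hF.adjoint hE.commutator hF.commutator R i
    rwa [Fintype.card_fin, Fintype.card_fin] at h
  · intro n M _ _ _ _ _ _ E hE R i
    have h := sym_rank M E hE.adjoint hE.commutator R i
    rwa [Fintype.card_fin] at h
  · intro n M _ _ _ _ _ _ E hE R i
    have h := skew_rank M E hE.adjoint hE.commutator R i
    rwa [card_skew] at h

end Pool.Agent.Results.MP_e2ce73_al.HermitianJordanSymmetry
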