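import Pool.Agent.L7h57.TP.Face

set_option autoImplicit false

/-!
# Horrocks' inequality and the faces and vertices of the Newton polytope

`M ≠ 0` is a finite dimensional module over `k[X_1, …, X_m]` on which the variables are nilpotent, with a grading by
`ℤ ^ r` for which `X_j` is homogeneous of degree `deg j`, and `F` is a resolution of `M` by finite free modules. (For
the modules of the problem this is a grading besides the given one, or a multigrading which refines it.) The
result reduces lower bounds for the ranks of the `F_i` to lower bounds for the faces and for the vertices of the convex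
hull of the degrees of `M`.

* **Faces.** Let `l_1, …, l_q` be functionals on `ℤ ^ r` such that any two of them have opposite signs at some
  `deg j`. Let `face ℳ l_t` be the sum of the pieces of `M` where `l_t` takes its maximum; it is a module over the
  variables with `l_t (deg j) = 0`. Let `c_t` be the number of the variables with `l_t (deg j) > 0`. Then `rank F_i` is
  at least the sum over `t` of the `(i - c_t)`-th Betti numbers of the modules `face ℳ l_t`.

* **Vertices.** Let `X_(σ 1), …, X_(σ n)` be the variables of degree `0`; they act on each piece `ℳ p`, and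
  `pieceDim ℳ σ p i` is the dimension of their Koszul homology. A set `J` of variables of nonzero degree is separated
  if there is a functional which is positive on the degrees of the variables in `J` and negative on those of the
  other variables of nonzero degree. If `b i ≤ Q * pieceDim ℳ σ p i` for all `i` and all vertices `p`, then
  `Q * rank F_i` is at least the sum of `b (i - |J|)` over the separated sets `J` with at most `i` elements. If for
  all `t` there are at most two variables whose degrees have the first nonzero coordinate `t` (`Blocks`), it is also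
  at least `∑ t ≤ i, binom(m - n, t) b (i - t)`.

* **Horrocks' inequality.** Suppose that `Blocks` holds or that all sets `J` of variables of nonzero degree with
  `i - n ≤ |J| ≤ i` are separated. If `X_(σ j) ^ N_j` vanishes on `ℳ p` and `dim ℳ p ≥ D` for all vertices `p`, then
  `binom(m, i) D ≤ N_1 ⋯ N_n rank F_i`. If each vertex `p` satisfies one of
  - `n ≤ 4`;
  - `k` is infinite and the products of any two variables of degree `0` vanish on `ℳ p`;
  - `X_(σ j) ^ N_j` vanishes on `ℳ p` for all `j` and `N_1 ⋯ N_n ≤ dim ℳ p`;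
  - `binom(n, i) ≤ pieceDim ℳ σ p i` for all `i`,

  then `rank F_i ≥ binom(m, i)`.

For `n = 0` the third part says that `rank F_i ≥ binom(m, i) D` if all pieces at the vertices have dimension at
least `D`. The starting results `PartialMultigrading` and `ChamberBounds` have the condition `n ≤ 4`, and no
condition on the pieces.
-/

namespace Pool.Agent.Results.MP_e2ce73_al.NewtonPolytopeTransfer

open MvPolynomial Pool.Agent.L7h57.TP Pool.Agent.Y577.BT

universe u v

theorem result (k : Type u) [Field k] (m r : ℕ) (deg : Fin m → Fin r → ℤ)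
    (M : Type v) [AddCommGroup M] [Module k M] [FiniteDimensional k M] [Nontrivial M]
    [Module (MvPolynomial (Fin m) k) M] [IsScalarTower k (MvPolynomial (Fin m) k) M]
    (ℳ : (Fin r → ℤ) → Submodule k M) (hℳ : DirectSum.IsInternal ℳ)
    (hX : ∀ (j : Fin m) (a : Fin r → ℤ), ∀ x ∈ ℳ a, (X j : MvPolynomial (Fin m) k) • x ∈ ℳ (a + deg j))
    (hnil : ∀ j : Fin m, ∃ N : ℕ, ∀ x : M, (X j : MvPolynomial (Fin m) k) ^ N • x = 0)
    (R : FreeRes (MvPolynomial (Fin m) k) M) :
    (∀ (q : ℕ) (l : Fin q → (Fin r → ℤ) →+ ℤ), (∀ s t, s ≠ t → ∃ j, l s (deg j) * l t (deg j) < 0) →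
      ∀ i : ℕ, ∑ t, (if (Finset.univ.filter fun j => 0 < l t (deg j)).card ≤ i then
        faceDim deg ℳ (l t) (i - (Finset.univ.filter fun j => 0 < l t (deg j)).card) else 0) ≤ R.rank i) ∧
    ∀ (n : ℕ) (σ : Fin n → Fin m), Function.Injective σ → (∀ j, deg j = 0 ↔ j ∈ Set.range σ) →
      (∀ (Q : ℕ) (b : ℕ → ℕ), (∀ p, IsVertex ℳ p → ∀ i, b i ≤ Q * pieceDim ℳ σ p i) →
        ∀ i, sepSum deg b i ≤ Q * R.rank i ∧
          (Blocks deg → ∑ t ∈ Finset.range (i + 1), (m - n).choose t * b (i - t) ≤ Q * R.rank i)) ∧
      ∀ i, Wide deg n i →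
        (∀ (N : Fin n → ℕ) (D : ℕ), (∀ p, IsVertex ℳ p → D ≤ Module.finrank k (ℳ p) ∧
            ∀ j, ∀ x ∈ ℳ p, (X (σ j) : MvPolynomial (Fin m) k) ^ N j • x = 0) →
          m.choose i * D ≤ (∏ j, N j) * R.rank i) ∧
        ((∀ p, IsVertex ℳ p → GoodPiece ℳ σ p) → m.choose i ≤ R.rank i) := by
  refine ⟨face_rank hℳ hX hnil R, fun n σ hσ hdeg => ⟨fun Q b hb i =>
    ⟨rank_ge hσ hdeg hℳ hX hnil R Q b _ hb bdP_sep i, fun hB => ?_⟩, fun i hw => ⟨fun N D h => ?_, fun h => ?_⟩⟩⟩
  · have h1 := rank_ge hσ hdeg hℳ hX hnil R Q b _ hb (bdP_blocks hB) i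
    rw [(card_A0 hσ hdeg).1] at h1
    exact h1
  · refine rank_wide hσ hdeg hℳ hX hnil R _ D i hw fun p hp i => ?_
    exact (Nat.mul_le_mul_left _ (h p hp).1).trans (pieceDim_pow hdeg hX p N (h p hp).2 i)
  · have h1 := rank_wide hσ hdeg hℳ hX hnil R 1 1 i hw fun p hp i => by
      rw [mul_one, one_mul]
      exact pieceDim_good hdeg hX hnil p hp.1 (h p hp) i
    rwa [mul_one, one_mul] at h1

end Pool.Agent.Results.MP_e2ce73_al.NewtonPolytopeTransfer
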