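import Pool.Agent.L7h57.SP.Bounds

set_option autoImplicit false

/-!
# Horrocks' inequality for specializations and associated graded modules

Let `M` be a finite dimensional module over `k[X_1, …, X_m]`. Let `V` be a vector space of the same dimension over a
field `K`, with commuting endomorphisms `y_1, …, y_m`, such that one of the following holds.

* `K` is the fraction field of a valuation ring `A` with a homomorphism `A → k`, the `X_j` are nilpotent on `M`, and
  `M` is the reduction of `(V, y)` at a lattice (`Specializes`).
* `K = k` and `M` is the associated graded module of `(V, y)` for a filtration for which the `y_j` have positive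
  degrees (`AssociatedGraded`).
* `K = k`, `V = M`, `M` is graded, `X_j` is homogeneous of positive degree `d_j`, and `y_j = X_j + δ_j`, where `δ_j` takes
  the elements of degree `p` to sums of elements of degrees less than `p + d_j`.

Then the modules of a free resolution of `M` satisfy the bounds `HorrocksBounds`: for all `λ` in `K ^ m`, the rank of
the `i`-th module is at least the dimension of the `i`-th Koszul homology of `V` for the operators `z_j = y_j - λ_j`,
and so at least that of each summand `e V` of `V`. Hence Horrocks' inequality holds for `M` if `(V, y)` has a nonzero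
summand `e V` such that `dim e V ≥ N_1 ⋯ N_m`, where `z_j ^ N_j` vanishes on `e V`, or all `z_i z_j` vanish on
`e V` (`K` infinite), or the `z_j` are nilpotent on `e V` and homogeneous for a coarse multigrading of `e V`.
The case `N_j = 1`: if the `y_j` act on `e V` as the scalars `λ_j`, then `β_i(M) ≥ binom(m, i) dim e V`.

Examples: `M = S / I` for the limits `I` of ideals of finite sets of points, and more generally of ideals which have
a component of one of the kinds above; `M = H^*(X)` for a space `X` with an action of the circle with finitely many
fixed points and `H^odd(X) = 0`, for every action of `k[X_1, …, X_m]` through classes of positive degrees: the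
equivariant cohomology makes `H^*(X)` the associated graded algebra of the algebra of functions on the fixed points.
-/

namespace Pool.Agent.Results.MP_e2ce73_al.SpecializationPrinciple

open MvPolynomial Pool.Agent.L7h57.SP Pool.Agent.Y577.BT

universe u₁ u₂ u₃ u₄ u₅

theorem result (k : Type u₃) [Field k] (m : ℕ) (M : Type u₅) [AddCommGroup M] [Module k M] [FiniteDimensional k M]
    [Module (MvPolynomial (Fin m) k) M] [IsScalarTower k (MvPolynomial (Fin m) k) M]
    (R : FreeRes (MvPolynomial (Fin m) k) M) :
    ((∀ j : Fin m, ∃ N : ℕ, ∀ x : M, (X j : MvPolynomial (Fin m) k) ^ N • x = 0) →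
      ∀ (A : Type u₁) [CommRing A] [IsDomain A] [ValuationRing A] (K : Type u₂) [Field K] [Algebra A K]
        [IsFractionRing A K] (π : A →+* k) (V : Type u₄) [AddCommGroup V] [Module K V]
        [FiniteDimensional K V] [Module A V] [IsScalarTower A K V] (y : Fin m → V →ₗ[K] V),
        (∀ i j x, y i (y j x) = y j (y i x)) → Nonempty (Specializes π y M) → HorrocksBounds y R.rank) ∧
    (∀ (V : Type u₄) [AddCommGroup V] [Module k V] [FiniteDimensional k V] (d : Fin m → ℤ) (y : Fin m → V →ₗ[k] V),
      (∀ i j x, y i (y j x) = y j (y i x)) → Nonempty (AssociatedGraded d y M) → HorrocksBounds y R.rank) ∧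
    (∀ (d : Fin m → ℤ) (ℳ : ℤ → Submodule k M) (y : Fin m → M →ₗ[k] M),
      (∀ i j x, y i (y j x) = y j (y i x)) → IsPerturbation d ℳ y → HorrocksBounds y R.rank) := by
  refine ⟨?_, ?_, ?_⟩
  · intro hnil A _ _ _ K _ _ _ π V _ _ _ _ _ y hy hS
    obtain ⟨S⟩ := hS
    exact horrocksBounds y R.rank hy fun lam => dominates_of_specializes S hnil hy lam R
  · intro V _ _ _ d y hy hS
    obtain ⟨S⟩ := hS
    exact horrocksBounds y R.rank hy fun lam => dominates_of_associatedGraded S hy lam R
  · intro d ℳ y hy hP
    obtain ⟨S⟩ := pert d hP.pos ℳ hP.internal hP.homogeneous y hP.lower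
    exact horrocksBounds y R.rank hy fun lam => dominates_of_associatedGraded S hy lam R

end Pool.Agent.Results.MP_e2ce73_al.SpecializationPrinciple
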